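import Pool.Agent.H25.CFL.Targets
import Pool.Agent.H62.HD.KE

/-!
# Row KV of hcl_modules: covering
-/

open Ordinal Cardinal Order Set
open scoped ZFSet

universe u

namespace Pool.Agent.H51.HCL

open _root_.HD Pool.Agent.H25.CFL Pool.Agent.H20.HD.OT Pool.Agent.H62.HD.KE

theorem pf_KV (hKX : T_KX.{u}) (hVA : T_VA.{u}) (hVH : T_VH.{u}) (hDB : T_DB.{u}) :
    T_KV.{u} := by
  intro M lam h c hSt S hS hSlim hpos A hA ⟨τ, hτ, e, he⟩
  obtain ⟨X, hX, hXlam, hXi, hXn⟩ := hKX M lam h c hSt S hS hSlim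
  have hlim : IsSuccLimit lam := hSt.reg.1
  have hM0 : ℵ₀ ≤ M := hSt.mreg.aleph0_le
  have hcof : ℵ₀ < lam.cof := hM0.trans_lt hSt.mlt
  -- the exceptional set
  have hnull := hVA M.ord lam hcof τ hτ
    (fun i => {x | x ∈ S ∧ e i < lam ∧ ∀ j < h x, ¬ Bx X (e i) (c x j)}) (fun i _ hP => by
      have hlt : e i < lam := by
        by_contra hn
        obtain ⟨b, -, -, h1, -⟩ := hP univ ⟨fun a ha => ⟨succ a, hlim.succ_lt ha, lt_succ a,
          mem_univ _⟩, fun _ _ _ _ => mem_univ _⟩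
        exact hn h1.2.1
      obtain ⟨z, hz⟩ := hXi (e i) hlt
      obtain ⟨z', hz'⟩ := hXi (succ (e i)) (hlim.succ_lt hlt)
      refine hXn (e i) z z' hz hz' (hP.mono fun x _ hx _ => ⟨hx.1, fun j hj hjz => ?_⟩)
      exact hx.2.2 j hj ⟨z, z', hz, hz', hjz.1, hjz.2⟩)
  obtain ⟨x, hxlam, -, ⟨hxS, hxn⟩, -⟩ := pos_diff hVA hcof hpos hnull univ
    ⟨fun a ha => ⟨succ a, hlim.succ_lt ha, lt_succ a, mem_univ _⟩, fun _ _ _ _ => mem_univ _⟩
  refine ⟨x, hxS, hxlam, os lam {i | ∃ j < h x, Bx X i (c x j)}, ?_, ?_⟩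
  · unfold PkHOD
    rw [ZFSet.mem_sep, ZFSet.mem_powerset]
    refine ⟨?_, ?_⟩
    · intro z hz
      obtain ⟨a, ha, -, rfl⟩ := mem_os.1 hz
      exact toZFSet_mem_toZFSet_iff.2 ha
    by_cases hne : ∃ i < lam, i ∈ {i | ∃ j < h x, Bx X i (c x j)}
    · obtain ⟨i0, hi0, hi0S⟩ := hne
      have hcx : DR fun j y => y = c x j := by
        refine (DO.ex (R := fun x' w => x' = x ∧ w 1 = c x' (w 0)) ((DO.eqc 0 x).and
          (DO.s3 (X := fun a b d => d = c a b) hSt.hc.dc 0 1 2))).congr fun w => ?_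
        constructor
        · intro hw
          exact ⟨x, rfl, hw⟩
        · rintro ⟨x', rfl, hw⟩
          exact hw
      let G : Ordinal.{u} → Ordinal.{u} → Prop := fun t i => i < lam ∧ Bx X i (c x t)
      have hG : DR G := by
        refine (DO.ltc 1 lam).and ?_
        refine (DO.ex (R := fun y w => y = c x (w 0) ∧ Bx X (w 1) y)
          ((DO.s2 (X := fun j y => y = c x j) hcx 1 0).and ((dr_bx hX).s2 2 0))).congr fun w => ?_
        constructor
        · intro hw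
          exact ⟨_, rfl, hw⟩
        · rintro ⟨y, rfl, hw⟩
          exact hw
      have hGu : ∀ t i j, G t i → G t j → i = j := fun t i j h1 h2 => bx_uniq h1.2 h2.2
      let R : Ordinal.{u} → Ordinal.{u} → Prop := fun t i => G t i ∨ (i = i0 ∧ ¬ ∃ i', G t i')
      have hR : DR R := by
        refine hG.or ((DO.eqc 1 i0).and (DO.not ?_))
        exact DO.ex (R := fun i' w => G (w 0) i') (hG.s2 1 0)
      refine ⟨h x, lt_succ _, rs (h x) lam R, hod_rs hR (h x) lam, func_of ?_ ?_ ?_, ?_⟩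
      · intro t ht i hi h1
        rcases h1 with h1 | ⟨rfl, -⟩
        · exact ⟨t, ht, h1.2⟩
        · exact hi0S
      · intro t _
        by_cases h1 : ∃ i', G t i'
        · obtain ⟨i', hi'⟩ := h1
          exact ⟨i', hi'.1, Or.inl hi'⟩
        · exact ⟨i0, hi0, Or.inr ⟨rfl, h1⟩⟩
      · intro t _ i j h1 h2
        rcases h1 with h1 | ⟨rfl, h1⟩
        · rcases h2 with h2 | ⟨-, h2⟩
          · exact hGu t i j h1 h2
          · exact absurd ⟨i, h1⟩ h2
        · rcases h2 with h2 | ⟨rfl, -⟩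
          · exact absurd ⟨j, h2⟩ h1
          · rfl
      · intro b hb
        obtain ⟨i, hi, ⟨t, ht, hbx⟩, rfl⟩ := mem_os.1 hb
        exact ⟨t, ht, pair_mem_rs.2 ⟨ht, hi, Or.inl ⟨hi, hbx⟩⟩⟩
    · push Not at hne
      have h0 : (0 : Ordinal.{u}) < succ (h x) := bot_le.trans_lt (lt_succ _)
      refine ⟨0, h0, rs 0 lam (fun _ _ => False),
        hod_rs (R := fun _ _ => False) (DO.cst False) 0 lam, func_of ?_ ?_ ?_, ?_⟩
      · intro t ht
        exact absurd ht (not_lt.2 bot_le)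
      · intro t ht
        exact absurd ht (not_lt.2 bot_le)
      · intro t ht
        exact absurd ht (not_lt.2 bot_le)
      · intro b hb
        obtain ⟨i, hi, hiS, -⟩ := mem_os.1 hb
        exact absurd hiS (hne i hi)
  · intro a ha
    refine ord_mem_os.2 ⟨hA ha, ?_⟩
    obtain ⟨i, hi, rfl⟩ := he a ha
    by_contra hn
    exact hxn ⟨i, hi, hxS, hA ha, fun j hj hb => hn ⟨j, hj, hb⟩⟩

end Pool.Agent.H51.HCL
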